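import Mathlib

/-!
# Project OC (MP_f38b71_nt, Q1), part A: functions on a residue disc represented by elements of an
abstract ring `B` (later: Laurent series in `q`), Frobenius lift `V`, unit root and Dwork's lemma.
-/

set_option autoImplicit false

namespace Pool.Agent.H465.OC

open Polynomial

noncomputable section

/-- The function `F` on the disc `{x : p ∣ x - c}` is represented by the element `s` of `B`: modulo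
every power of `p` there are polynomials `g, h`, `h(c)` a unit, with `h(j) s = g(j)` and `h F = g`. -/
def Rel {p : ℕ} [Fact p.Prime] {B : Type} [CommRing B] [Algebra ℤ_[p] B] (j : B) (c : ℤ_[p])
    (F : ℤ_[p] → ℤ_[p]) (s : B) : Prop :=
  ∀ M : ℕ, ∃ g h : ℤ_[p][X], IsUnit (h.eval c) ∧
    (p : B) ^ M ∣ aeval j h * s - aeval j g ∧
    ∀ x, (p : ℤ_[p]) ∣ x - c → (p : ℤ_[p]) ^ M ∣ h.eval x * F x - g.eval x

/-- Polynomials in `j` divisible by `p^M` have coefficients divisible by `p^M`. -/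
def Inj (p : ℕ) [Fact p.Prime] {B : Type} [CommRing B] [Algebra ℤ_[p] B] (j : B) : Prop :=
  ∀ (M : ℕ) (g : ℤ_[p][X]), (p : B) ^ M ∣ aeval j g → (p : ℤ_[p][X]) ^ M ∣ g

/-- `p` is not a zero divisor. -/
def NZ (p : ℕ) (B : Type) [CommRing B] : Prop := ∀ s : B, (p : B) * s = 0 → s = 0

/-- Task A1. -/
def RelRing : Prop := ∀ (p : ℕ) [Fact p.Prime] (B : Type) [CommRing B] [Algebra ℤ_[p] B] (j : B)
  (c : ℤ_[p]),
  Rel j c (fun x => x) j ∧ (∀ r : ℤ_[p], Rel j c (fun _ => r) (algebraMap ℤ_[p] B r)) ∧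
  ∀ (F F' : ℤ_[p] → ℤ_[p]) (s s' : B), Rel j c F s → Rel j c F' s' →
    Rel j c (fun x => F x + F' x) (s + s') ∧ Rel j c (fun x => F x * F' x) (s * s') ∧
    Rel j c (fun x => F x - F' x) (s - s')

/-- Task A2. -/
def RelDiv : Prop := ∀ (p : ℕ) [Fact p.Prime] (B : Type) [CommRing B] [Algebra ℤ_[p] B] (j : B)
  (c : ℤ_[p]), Inj p j → NZ p B →
  (∀ (F : ℤ_[p] → ℤ_[p]) (s : B) (a : ℕ), Rel j c F ((p : B) ^ a * s) →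
    ∃ F' : ℤ_[p] → ℤ_[p], Rel j c F' s ∧
      ∀ x, (p : ℤ_[p]) ∣ x - c → F x = (p : ℤ_[p]) ^ a * F' x) ∧
  (∀ F : ℤ_[p] → ℤ_[p], Rel j c F 0 → ∀ x, (p : ℤ_[p]) ∣ x - c → F x = 0)

/-- Task A3: represented functions are Lipschitz. -/
def RelLip : Prop := ∀ (p : ℕ) [Fact p.Prime] (B : Type) [CommRing B] [Algebra ℤ_[p] B] (j : B)
  (c : ℤ_[p]) (F : ℤ_[p] → ℤ_[p]) (s : B), Rel j c F s →
  ∀ (x y : ℤ_[p]) (m : ℕ), (p : ℤ_[p]) ∣ x - c → (p : ℤ_[p]) ∣ y - c →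
    (p : ℤ_[p]) ^ m ∣ x - y → (p : ℤ_[p]) ^ m ∣ F x - F y

/-- Task A4: existence of the function. -/
def RelEx : Prop := ∀ (p : ℕ) [Fact p.Prime] (B : Type) [CommRing B] [Algebra ℤ_[p] B] (j : B)
  (c : ℤ_[p]), Inj p j → ∀ s : B,
  (∀ M : ℕ, ∃ g h : ℤ_[p][X], IsUnit (h.eval c) ∧ (p : B) ^ M ∣ aeval j h * s - aeval j g) →
  ∃ F : ℤ_[p] → ℤ_[p], Rel j c F s

/-- Task A5: composition with the Frobenius lift. -/
def RelV : Prop := ∀ (p : ℕ) [Fact p.Prime] (B : Type) [CommRing B] [Algebra ℤ_[p] B] (j : B)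
  (c : ℤ_[p]) (V : B →ₐ[ℤ_[p]] B) (φ : ℤ_[p] → ℤ_[p]), Rel j c φ (V j) →
  (∀ x, (p : ℤ_[p]) ∣ x - c → (p : ℤ_[p]) ∣ φ x - c) →
  ∀ (F : ℤ_[p] → ℤ_[p]) (s : B), Rel j c F s → Rel j c (fun x => F (φ x)) (V s)

/-- Task A6: the Frobenius lift is contracting and has a fixed point. -/
def FixPt : Prop := ∀ (p : ℕ) [Fact p.Prime] (B : Type) [CommRing B] [Algebra ℤ_[p] B] (j : B)
  (c : ℤ_[p]) (V : B →ₐ[ℤ_[p]] B) (φ : ℤ_[p] → ℤ_[p]), Inj p j → NZ p B →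
  (p : B) ∣ V j - j ^ p → Rel j c φ (V j) →
  (∀ x, (p : ℤ_[p]) ∣ x - c → (p : ℤ_[p]) ∣ φ x - c) ∧
  ∃ c0 : ℤ_[p], (p : ℤ_[p]) ∣ c0 - c ∧ φ c0 = c0 ∧
    ∀ x, (p : ℤ_[p]) ∣ x - c → ∀ m : ℕ, (p : ℤ_[p]) ^ (m + 1) ∣ φ^[m] x - c0

def JFixPt : Prop := RelRing → RelDiv → RelLip → FixPt

/-- Task A7: Dwork's lemma with the eigenvalue `Λ(c0)`. -/
def Dwork : Prop := ∀ (p : ℕ) [Fact p.Prime] (B : Type) [CommRing B] [Algebra ℤ_[p] B] (j : B)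
  (c : ℤ_[p]) (V : B →ₐ[ℤ_[p]] B) (φ : ℤ_[p] → ℤ_[p]), Inj p j → NZ p B →
  (p : B) ∣ V j - j ^ p → Rel j c φ (V j) →
  (∀ x, (p : ℤ_[p]) ∣ x - c → (p : ℤ_[p]) ∣ φ x - c) →
  ∀ c0 : ℤ_[p], (p : ℤ_[p]) ∣ c0 - c → φ c0 = c0 →
  (∀ x, (p : ℤ_[p]) ∣ x - c → ∀ m : ℕ, (p : ℤ_[p]) ^ (m + 1) ∣ φ^[m] x - c0) →
  ∀ (Λ : ℤ_[p] → ℤ_[p]) (L : B), Rel j c Λ L →
  ∀ P : ℕ → ℤ_[p][X],
    (∀ l, ∃ e : B, aeval j (P (l + 1)) = L * V (aeval j (P l)) + (p : B) ^ (l + 1) * e) →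
    ∀ (l : ℕ) (x : ℤ_[p]), (p : ℤ_[p]) ∣ x - c →
      (p : ℤ_[p]) ^ (l + 1) ∣ (P (l + 1)).eval x - Λ c0 * (P l).eval x

def JDwork : Prop := RelRing → RelDiv → RelLip → RelV → Dwork

end

end Pool.Agent.H465.OC
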