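import Pool.Graph.R_pool_sql_team_seeded_3997aac3.Q279.SC.Stm
import Pool.Graph.R_pool_sql_team_seeded_3997aac3.Q279.FB.Defs
import Pool.Agent.H465.OC.StmA

/-!
# Project OC (MP_f38b71_nt, Q1), part B: Laurent series in `q`, statements of the lemmas

`q4 R`, `q6 R`, `qD R`, `qd R` are `E_4`, `E_6`, `Δ`, `Δ/q` over the commutative ring `R` (library
`Pool.Agent.Q279.SC`), `fr p` is `q ↦ q^p` on power series.
-/

set_option autoImplicit false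

namespace Pool.Agent.H465.OC

open Polynomial Pool.Agent.Q279.SC

noncomputable section

/-- A power series as a Laurent series. -/
def ls {R : Type} [CommRing R] (f : PowerSeries R) : LaurentSeries R :=
  HahnSeries.ofPowerSeries ℤ R f

/-- `1/Δ` -/
def Di (R : Type) [CommRing R] : LaurentSeries R :=
  HahnSeries.single (-1) 1 * ls (PowerSeries.invOfUnit (qd R) 1)

/-- the `j`-invariant -/
def jj (R : Type) [CommRing R] : LaurentSeries R := ls (q4 R) ^ 3 * Di R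

/-- `1, E_4, E_6, E_4^2, E_4 E_6, E_4^2 E_6` -/
def bb (R : Type) [CommRing R] : Fin 6 → PowerSeries R :=
  ![1, q4 R, q6 R, q4 R ^ 2, q4 R * q6 R, q4 R ^ 2 * q6 R]

/-- the weights of `bb` -/
def rr : Fin 6 → ℕ := ![0, 4, 6, 8, 10, 14]

/-- `E_k`, `k = 14 - rr i`, i.e. `E_14, E_10, E_8, E_6, E_4, 1`; `bb i * ee i = E_4^2 E_6`. -/
def ee (R : Type) [CommRing R] : Fin 6 → PowerSeries R :=
  ![q4 R ^ 2 * q6 R, q4 R * q6 R, q4 R ^ 2, q6 R, q4 R, 1]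

/-- `q ↦ q^p` on Laurent series, as a ring homomorphism -/
def VR (p : ℕ) [hp : Fact p.Prime] (R : Type) [CommRing R] :
    LaurentSeries R →+* LaurentSeries R :=
  HahnSeries.embDomainRingHom (AddMonoidHom.mulLeft (p : ℤ))
    (fun a b h => by
      have h0 : (p : ℤ) ≠ 0 := by exact_mod_cast hp.out.ne_zero
      exact mul_left_cancel₀ h0 h)
    (fun a b => by
      have h0 : (0 : ℤ) < p := by exact_mod_cast hp.out.pos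
      exact mul_le_mul_iff_right₀ h0)

/-- `q ↦ q^p` on Laurent series -/
def VV (p : ℕ) [hp : Fact p.Prime] (R : Type) [CommRing R] :
    LaurentSeries R →ₐ[R] LaurentSeries R :=
  { VR p R with
    commutes' := fun r => by
      have h : algebraMap R (LaurentSeries R) r = HahnSeries.C r := by
        rw [HahnSeries.algebraMap_apply']
        simp
      change VR p R (algebraMap R (LaurentSeries R) r) = _
      rw [h]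
      exact HahnSeries.embDomainRingHom_C }

theorem UU_bdd (p : ℕ) [hp : Fact p.Prime] {R : Type} [CommRing R] (s : LaurentSeries R) :
    BddBelow (Function.support fun n : ℤ => s.coeff (p * n)) := by
  have h0 : (1 : ℤ) ≤ p := by exact_mod_cast hp.out.one_lt.le
  rcases eq_or_ne s 0 with rfl | hs
  · simp
  refine ⟨min s.order 0, fun n hn => ?_⟩
  by_contra h
  rw [not_le] at h
  apply hn
  have h1 : n < 0 := lt_of_lt_of_le h (min_le_right _ _)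
  have h2 : n < s.order := lt_of_lt_of_le h (min_le_left _ _)
  exact HahnSeries.coeff_eq_zero_of_lt_order (by nlinarith)

/-- the operator `U_p` on Laurent series: `∑ a(n) q^n ↦ ∑ a(p n) q^n` -/
def UU (p : ℕ) [hp : Fact p.Prime] (R : Type) [CommRing R] (s : LaurentSeries R) :
    LaurentSeries R := HahnSeries.ofSuppBddBelow (fun n : ℤ => s.coeff (p * n)) (UU_bdd p s)

/-- Task B1. -/
def LSBasic : Prop := ∀ (p : ℕ) [Fact p.Prime] (R : Type) [CommRing R],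
  (∀ (s : LaurentSeries R) (n : ℤ), (VV p R s).coeff (p * n) = s.coeff n) ∧
  (∀ (s : LaurentSeries R) (n : ℤ), ¬ (p : ℤ) ∣ n → (VV p R s).coeff n = 0) ∧
  (∀ f : PowerSeries R, VV p R (ls f) = ls (fr p f)) ∧
  ls (qD R) * Di R = 1 ∧ ls (q4 R) * ls (PowerSeries.invOfUnit (q4 R) 1) = 1 ∧
  ls (q6 R) * ls (PowerSeries.invOfUnit (q6 R) 1) = 1 ∧
  ls (q6 R) ^ 2 * Di R = jj R - 1728 ∧
  (∀ s : LaurentSeries R, UU p R (VV p R s) = s) ∧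
  (jj R).coeff (-1) = 1 ∧ (∀ n : ℤ, n < -1 → (jj R).coeff n = 0) ∧
  (Di R).coeff (-1) = 1 ∧ (∀ n : ℤ, n < -1 → (Di R).coeff n = 0)

/-- Task B2. -/
def LSInj : Prop := ∀ (p : ℕ) [Fact p.Prime],
  Inj p (jj ℤ_[p]) ∧ NZ p (LaurentSeries ℤ_[p]) ∧
  (∀ s : LaurentSeries ℤ_[p], (p : LaurentSeries ℤ_[p]) ∣ VV p ℤ_[p] s - s ^ p)

/-- The Hecke operator on weakly holomorphic forms of negative weight: for `f = b_i Δ^(-N) g(j)` of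
weight `rr i - 12 N < 0` the series `V f + p^(1 - weight) U f` is of the form `b_i Δ^(-N) Q(j)`. -/
def HeckeZ : Prop := ∀ (p : ℕ) [Fact p.Prime] (R : Type) [CommRing R] (i : Fin 6) (N : ℕ),
  rr i < 12 * N → ∀ g : R[X], ∃ Q : R[X],
    VV p R (ls (bb R i) * Di R ^ N * aeval (jj R) g) +
      (p : LaurentSeries R) ^ (12 * N + 1 - rr i) *
        UU p R (ls (bb R i) * Di R ^ N * aeval (jj R) g) =
      ls (bb R i) * Di R ^ N * aeval (jj R) Q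

/-- The polynomial `P` has `b_i Δ^(-1) P(j) = q^(-m) + O(1)`. -/
def IsBas (R : Type) [CommRing R] (i : Fin 6) (m : ℕ) (P : R[X]) : Prop :=
  ∀ n : ℤ, n < 0 → (ls (bb R i) * Di R * aeval (jj R) P).coeff n = if n = -(m : ℤ) then 1 else 0

/-- Task B3: the basis of the weakly holomorphic forms of weight `2 - k = rr i - 12`. -/
def Basis : Prop := ∀ (R : Type) [CommRing R] (i : Fin 6), (i : ℕ) < 5 →
  (∀ m : ℕ, 1 ≤ m → ∃ P : R[X], IsBas R i m P) ∧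
  (∀ g : R[X], (∀ n : ℤ, n < 0 → (ls (bb R i) * Di R * aeval (jj R) g).coeff n = 0) → g = 0)

def JBasis : Prop := LSBasic → Basis

/-- Task B4: duality. -/
def DualG : Prop := ∀ (R : Type) [CommRing R] (i : Fin 6), (i : ℕ) < 5 → ∀ (m : ℕ), 1 ≤ m →
  ∀ P : R[X], IsBas R i m P → ∀ (c : R) (Φ : PowerSeries R),
    Φ * (q4 R ^ 3 - PowerSeries.C c * qD R) = ee R i * qd R → P.eval c = PowerSeries.coeff (m - 1) Φ

/-- Task B5: the sequence `P_{n p^l}`. -/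
def Seq : Prop := ∀ (p : ℕ) [Fact p.Prime] (i : Fin 6), (i : ℕ) < 5 →
  ∀ P : ℕ → ℤ_[p][X], (∀ m, 1 ≤ m → IsBas ℤ_[p] i m (P m)) →
  ∀ L : LaurentSeries ℤ_[p],
    L * (ls (bb ℤ_[p] i) * Di ℤ_[p]) = VV p ℤ_[p] (ls (bb ℤ_[p] i) * Di ℤ_[p]) →
  ∀ n l : ℕ, 1 ≤ n → ∃ e : LaurentSeries ℤ_[p],
    aeval (jj ℤ_[p]) (P (n * p ^ (l + 1))) =
      L * VV p ℤ_[p] (aeval (jj ℤ_[p]) (P (n * p ^ l))) + (p : LaurentSeries ℤ_[p]) ^ (l + 1) * e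

def JSeq : Prop := LSBasic → HeckeZ → Basis → Seq

/-- The point `c` is ordinary. -/
def OrdAt (p : ℕ) [Fact p.Prime] (c : ℤ_[p]) : Prop := ∀ A : ℤ_[p][X],
  (p : LaurentSeries ℤ_[p]) ∣ aeval (jj ℤ_[p]) A * ls (qD ℤ_[p]) ^ (p - 1) - 1 → IsUnit (A.eval c)

/-- `s` is represented near `c`. -/
def Repr (p : ℕ) [Fact p.Prime] (c : ℤ_[p]) (s : LaurentSeries ℤ_[p]) : Prop :=
  ∀ M : ℕ, ∃ g h : ℤ_[p][X], IsUnit (h.eval c) ∧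
    (p : LaurentSeries ℤ_[p]) ^ M ∣ aeval (jj ℤ_[p]) h * s - aeval (jj ℤ_[p]) g

/-- `E_4(q^p)/E_4(q)` -/
def s4 (p : ℕ) [Fact p.Prime] : LaurentSeries ℤ_[p] :=
  VV p ℤ_[p] (ls (q4 ℤ_[p])) * ls (PowerSeries.invOfUnit (q4 ℤ_[p]) 1)

/-- `E_6(q^p)/E_6(q)` -/
def s6 (p : ℕ) [Fact p.Prime] : LaurentSeries ℤ_[p] :=
  VV p ℤ_[p] (ls (q6 ℤ_[p])) * ls (PowerSeries.invOfUnit (q6 ℤ_[p]) 1)

/-- `Δ(q^p)/Δ(q)` -/
def sD (p : ℕ) [Fact p.Prime] : LaurentSeries ℤ_[p] := VV p ℤ_[p] (ls (qD ℤ_[p])) * Di ℤ_[p]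

/-- Task B6. -/
def RelData : Prop := ∀ (p : ℕ) [Fact p.Prime] (c : ℤ_[p]), OrdAt p c →
  Repr p c (VV p ℤ_[p] (jj ℤ_[p])) ∧ Repr p c (s4 p) ∧ Repr p c (s6 p) ∧ Repr p c (sD p) ∧
  ∀ i : Fin 6, (i : ℕ) < 5 → ∀ L : LaurentSeries ℤ_[p],
    L * (ls (bb ℤ_[p] i) * Di ℤ_[p]) = VV p ℤ_[p] (ls (bb ℤ_[p] i) * Di ℤ_[p]) → Repr p c L

def JRelData : Prop := LSBasic → LSInj → HeckeZ → RelData

/-- Task B7: the relations between the values at the fixed point. -/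
def FixRel : Prop := ∀ (p : ℕ) [Fact p.Prime] (c : ℤ_[p]), OrdAt p c →
  ∀ (φ R4 R6 δ : ℤ_[p] → ℤ_[p]), Rel (jj ℤ_[p]) c φ (VV p ℤ_[p] (jj ℤ_[p])) →
    Rel (jj ℤ_[p]) c R4 (s4 p) → Rel (jj ℤ_[p]) c R6 (s6 p) → Rel (jj ℤ_[p]) c δ (sD p) →
  ∀ c0 : ℤ_[p], (p : ℤ_[p]) ∣ c0 - c → φ c0 = c0 → c0 ≠ 0 → c0 ≠ 1728 →
    R4 c0 ^ 3 = δ c0 ∧ R6 c0 ^ 2 = δ c0 ∧ IsUnit (δ c0) ∧
    ∀ i : Fin 6, (i : ℕ) < 5 → ∀ (L : LaurentSeries ℤ_[p]) (Λ : ℤ_[p] → ℤ_[p]),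
      L * (ls (bb ℤ_[p] i) * Di ℤ_[p]) = VV p ℤ_[p] (ls (bb ℤ_[p] i) * Di ℤ_[p]) →
      Rel (jj ℤ_[p]) c Λ L →
      Λ c0 * δ c0 = R4 c0 ^ ((![0, 1, 0, 2, 1, 2] : Fin 6 → ℕ) i) *
        R6 c0 ^ ((![0, 0, 1, 0, 1, 1] : Fin 6 → ℕ) i)

def JFixRel : Prop := RelRing → RelDiv → LSBasic → LSInj → HeckeZ → FixRel

/-- Task B8: the primes 2 and 3. -/
def Ord23 : Prop := ∀ (p : ℕ) [Fact p.Prime], p = 2 ∨ p = 3 → ∀ c : ℤ_[p], IsUnit c → OrdAt p c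

def JOrd23 : Prop := LSBasic → LSInj → Ord23

/-- Task B9: the number of points modulo `p` and the Hasse polynomial. -/
def CountEq : Prop := ∀ (p : ℕ) [Fact p.Prime], 5 ≤ p → ∀ W : WeierstrassCurve ℤ,
  ¬ (p : ℤ) ∣ W.Δ →
  ((ap W p : ℤ) : ZMod p) = at2 ((W.c₄ : ℤ) : ZMod p) ((W.c₆ : ℤ) : ZMod p) (hs p)

/-- Task B10: the Hasse polynomial at the cusp. -/
def Hs11 : Prop := ∀ (p : ℕ) [Fact p.Prime], 5 ≤ p → at2 (1 : ZMod p) 1 (hs p) ^ 2 = 1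

/-- Task B11: isobaric polynomials of weight `6 m` over a field of characteristic `≠ 2, 3`. -/
def IsoJ : Prop := ∀ (F : Type) [Field F], (6 : F) ≠ 0 → ∀ (m : ℕ) (G : P2 F), Iso G (6 * m) →
  ∃ g : F[X], ls (ev F G) = ls (qD F) ^ m * aeval (jj F) g ∧
    ∀ x y D : F, 1728 * D = x ^ 3 - y ^ 2 → D ≠ 0 → at2 x y G = D ^ m * g.eval (x ^ 3 / D)

/-- Task B12: ordinary reduction, `p ≥ 5`. -/
def Ord5 : Prop := ∀ (p : ℕ) [Fact p.Prime], 5 ≤ p → ∀ W : WeierstrassCurve ℤ,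
  ¬ (p : ℤ) ∣ W.Δ → ¬ (p : ℤ) ∣ W.c₄ → ¬ (p : ℤ) ∣ W.c₆ → ¬ (p : ℤ) ∣ ap W p →
  ∀ c : ℤ_[p], c * (W.Δ : ℤ_[p]) = (W.c₄ : ℤ_[p]) ^ 3 → OrdAt p c ∧
    ∀ R4 R6 : ℤ_[p] → ℤ_[p], Rel (jj ℤ_[p]) c R4 (s4 p) → Rel (jj ℤ_[p]) c R6 (s6 p) →
      (p : ℤ_[p]) ∣ R4 c * (ap W p : ℤ_[p]) ^ 4 - 1 ∧ (p : ℤ_[p]) ∣ R6 c * (ap W p : ℤ_[p]) ^ 6 - 1

def JOrd5 : Prop := RelRing → RelDiv → LSBasic → LSInj → CountEq → Hs11 → IsoJ → Ord5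

/-- Task B13: Hasse's bound. -/
def HasseS : Prop := ∀ p : ℕ, p.Prime → 5 ≤ p → ∀ W : WeierstrassCurve ℤ, ¬ (p : ℤ) ∣ W.Δ →
  ap W p ^ 2 ≤ 4 * p

/-- `A Δ(q^p)/Δ + B E_4(q^p) E_4^2/Δ + C E_6(q^p) E_6/Δ` -/
def TT (p : ℕ) [Fact p.Prime] (R : Type) [CommRing R] (A B C : ℤ) : LaurentSeries R :=
  (A : LaurentSeries R) * (VV p R (ls (qD R)) * Di R) +
    (B : LaurentSeries R) * (VV p R (ls (q4 R)) * ls (q4 R) ^ 2 * Di R) +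
    (C : LaurentSeries R) * (VV p R (ls (q6 R)) * ls (q6 R) * Di R)

/-- Task B14: evaluation of the modular equation at a `p`-adic point. -/
def EvalPoly : Prop := ∀ (p : ℕ) [Fact p.Prime] (c : ℤ_[p]) (R4 R6 δ : ℤ_[p] → ℤ_[p]),
  Rel (jj ℤ_[p]) c R4 (s4 p) → Rel (jj ℤ_[p]) c R6 (s6 p) → Rel (jj ℤ_[p]) c δ (sD p) →
  ∀ (A B C : ℤ) (g : ℕ → ℚ[X]),
    ∑ k ∈ Finset.range (p + 2), (-1 : LaurentSeries ℚ) ^ k * aeval (jj ℚ) (g k) *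
      TT p ℚ A B C ^ (p + 1 - k) = 0 →
    ∀ x : ℤ_[p], (p : ℤ_[p]) ∣ x - c →
      ∑ k ∈ Finset.range (p + 2), (-1 : ℚ_[p]) ^ k * aeval (x : ℚ_[p]) (g k) *
        (((A : ℤ_[p]) * δ x + (B : ℤ_[p]) * (R4 x * x) + (C : ℤ_[p]) * (R6 x * (x - 1728)) : ℤ_[p]) :
          ℚ_[p]) ^ (p + 1 - k) = 0

def JEvalPoly : Prop := RelRing → RelDiv → LSBasic → LSInj → EvalPoly

/-- Task B15: the small primes 3, 5, 7, 11, 13 (finite computation). -/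
def Small (p : ℕ) : Prop := ∀ W : WeierstrassCurve ℤ, ¬ (p : ℤ) ∣ W.Δ → ¬ (p : ℤ) ∣ W.c₄ →
  ¬ (p : ℤ) ∣ W.c₆ → ¬ (p : ℤ) ∣ ap W p → ∀ n : ℕ, 0 < n → n < p →
  (p : ℤ) ∣ n * W.Δ - W.c₄ ^ 3 → ∀ Φ : PowerSeries ℤ,
    Φ * (q4 ℤ ^ 3 - PowerSeries.C (n : ℤ) * qD ℤ) = q4 ℤ * qd ℤ → ∀ t : ℤ, t ^ 2 < 4 * p →
    ¬ (p : ℤ) ∣ t → (p : ℤ) ^ 2 ∣ (t ^ 2 - 2 * p) * PowerSeries.coeff (p - 1) Φ - PowerSeries.coeff (p ^ 2 - 1) Φ →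
    t ^ 2 = ap W p ^ 2

/-- Task B17: `E_8 = E_4^2`, `E_10 = E_4 E_6`, `E_14 = E_4^2 E_6`. -/
def EisId : Prop := Q279.FB.E 8 = Q279.FB.E 4 ^ 2 ∧ Q279.FB.E 10 = Q279.FB.E 4 * Q279.FB.E 6 ∧
  Q279.FB.E 14 = Q279.FB.E 4 ^ 2 * Q279.FB.E 6

/-- Task B18: the coefficients of `E_k/(j - c)`. -/
def LinkG : Prop := ∀ (p : ℕ) [Fact p.Prime] (i : Fin 6), (i : ℕ) < 5 → ∀ (c : ℚ) (c' : ℤ_[p]),
  (c' : ℚ_[p]) = (c : ℚ_[p]) → ∀ Φ : PowerSeries ℤ_[p],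
    Φ * (q4 ℤ_[p] ^ 3 - PowerSeries.C c' * qD ℤ_[p]) = ee ℤ_[p] i * qd ℤ_[p] → ∀ m : ℕ, 1 ≤ m →
    ((Q279.FB.a (Q279.FB.F (14 - rr i) 1 c) (m : ℚ) : ℚ) : ℚ_[p]) =
      ((PowerSeries.coeff (m - 1) Φ : ℤ_[p]) : ℚ_[p])

def JLinkG : Prop := EisId → LinkG

end

end Pool.Agent.H465.OC
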