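import Pool.Agent.H465.OC.StmC

/-!
# Project OC: algebra of unit roots
-/

set_option autoImplicit false

namespace Pool.Agent.H465.OC

open Pool.Agent.Q279.SC

variable {p : ℕ} [hp : Fact p.Prime]

theorem p_not_unit : ¬ IsUnit (p : ℤ_[p]) := by
  rw [PadicInt.isUnit_iff, PadicInt.norm_p]
  have h1 : (1 : ℝ) < p := by exact_mod_cast hp.out.one_lt
  intro h
  have h2 : ((p : ℝ))⁻¹ < 1 := inv_lt_one_of_one_lt₀ h1
  linarith

theorem unit_of_not_dvd {x : ℤ_[p]} (h : ¬ (p : ℤ_[p]) ∣ x) : IsUnit x := by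
  rw [PadicInt.isUnit_iff]
  by_contra hne
  exact h ((PadicInt.norm_lt_one_iff_dvd x).1 (lt_of_le_of_ne (PadicInt.norm_le_one _) hne))

theorem not_dvd_of_unit {x : ℤ_[p]} (h : IsUnit x) : ¬ (p : ℤ_[p]) ∣ x := fun hd =>
  p_not_unit (isUnit_of_dvd_unit hd h)

theorem unit_congr {x y : ℤ_[p]} (h : (p : ℤ_[p]) ∣ x - y) (hy : IsUnit y) : IsUnit x := by
  apply unit_of_not_dvd
  intro hx
  apply not_dvd_of_unit hy
  have : y = x - (x - y) := by ring
  rw [this]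
  exact dvd_sub hx h

/-- The square of the unit root. -/
theorem w_eq {w u A : ℤ_[p]} (hw : IsUnit w) (hu : IsUnit u) (hu2 : u ^ 2 - A * u + p = 0)
    (h : w ^ 2 + (p : ℤ_[p]) ^ 2 = (A ^ 2 - 2 * p) * w) : w = u ^ 2 := by
  have h1 : u ^ 4 + (p : ℤ_[p]) ^ 2 = (A ^ 2 - 2 * p) * u ^ 2 := by
    have h2 : u ^ 2 + p = A * u := by linear_combination hu2
    linear_combination (u ^ 2 + p + A * u) * h2
  have h3 : (u ^ 2 - w) * (u ^ 2 + w - (A ^ 2 - 2 * p)) = 0 := by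
    linear_combination h1 - h
  rcases mul_eq_zero.1 h3 with h4 | h4
  · exact (sub_eq_zero.1 h4).symm
  · exfalso
    have h5 : (p : ℤ_[p]) ^ 2 = w * u ^ 2 := by
      linear_combination h1 - u ^ 2 * h4
    have h6 : IsUnit ((p : ℤ_[p]) ^ 2) := by
      rw [h5]
      exact hw.mul (hu.pow 2)
    exact p_not_unit ((isUnit_pow_iff (by norm_num)).1 h6)

/-- The eigenvalue in terms of `w = e4 / e6`. -/
theorem lam_eq {w e4 e6 δ Λ : ℤ_[p]} (h1 : e4 = w * e6) (h2 : e4 ^ 3 = δ) (h3 : e6 ^ 2 = δ)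
    (hδ : IsUnit δ) (a b : ℕ) (hΛ : Λ * δ = e4 ^ a * e6 ^ b) (r : ℕ) (hr : r + 2 * a + 3 * b = 6) :
    Λ = w ^ r := by
  have h6 : IsUnit e6 := by
    rw [← h3] at hδ
    exact (isUnit_pow_iff (by norm_num)).1 hδ
  have h4 : w ^ 3 * e6 = 1 := by
    have h5 : e6 ^ 2 * (w ^ 3 * e6) = e6 ^ 2 * 1 := by
      rw [h1] at h2
      linear_combination h2 - h3
    exact (h6.pow 2).mul_left_cancel h5
  have h7 : w ^ 2 * e4 = 1 := by
    rw [h1]; linear_combination h4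
  have h8 : Λ * (w ^ 3 * e6) ^ 2 = (w ^ 2 * e4) ^ a * (w ^ 3 * e6) ^ b * w ^ r := by
    rw [← h3] at hΛ
    have h9 : w ^ 6 = w ^ (2 * a) * w ^ (3 * b) * w ^ r := by
      rw [← pow_add, ← pow_add]
      congr 1
      omega
    calc Λ * (w ^ 3 * e6) ^ 2 = (Λ * e6 ^ 2) * w ^ 6 := by ring
      _ = e4 ^ a * e6 ^ b * (w ^ (2 * a) * w ^ (3 * b) * w ^ r) := by rw [hΛ, h9]
      _ = _ := by
        rw [mul_pow, mul_pow, ← pow_mul, ← pow_mul]
        ring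
  rw [h4, h7] at h8
  simpa using h8

/-- Integers. -/
theorem sq_eq_of {t a : ℤ} (hp17 : 17 ≤ p) (ht : t ^ 2 < 4 * p) (ha : a ^ 2 ≤ 4 * p)
    (h : (p : ℤ) ∣ t ^ 2 - a ^ 2) : t ^ 2 = a ^ 2 := by
  have hpi : Prime (p : ℤ) := Nat.prime_iff_prime_int.1 hp.out
  have h1 : (p : ℤ) ∣ (t - a) * (t + a) := by
    have : (t - a) * (t + a) = t ^ 2 - a ^ 2 := by ring
    rw [this]; exact h
  have h17 : (17 : ℤ) ≤ p := by exact_mod_cast hp17
  have key : ∀ x : ℤ, (p : ℤ) ∣ x → x ^ 2 < 16 * p → x = 0 := by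
    rintro x ⟨y, rfl⟩ hx
    by_contra hne
    have hy : y ≠ 0 := by
      rintro rfl
      simp at hne
    have hy2 : 1 ≤ y ^ 2 := by
      have := sq_pos_of_ne_zero hy
      omega
    have h5 : (p : ℤ) ^ 2 * 1 ≤ (p : ℤ) ^ 2 * y ^ 2 :=
      mul_le_mul_of_nonneg_left hy2 (sq_nonneg _)
    have h6 : (p : ℤ) * 17 ≤ (p : ℤ) * p := mul_le_mul_of_nonneg_left h17 (by omega)
    have h7 : ((p : ℤ) * y) ^ 2 = (p : ℤ) ^ 2 * y ^ 2 := by ring
    rw [h7] at hx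
    nlinarith
  rcases hpi.dvd_or_dvd h1 with h2 | h2
  · have h3 := key _ h2 (by nlinarith [sq_nonneg (t + a)])
    have : t = a := by omega
    rw [this]
  · have h3 := key _ h2 (by nlinarith [sq_nonneg (t - a)])
    have : t = -a := by omega
    rw [this]; ring

/-- Hensel's lemma: existence and uniqueness of the unit root. -/
theorem unit_root (A : ℤ) (hA : ¬ (p : ℤ) ∣ A) :
    ∃! u : ℤ_[p], IsUnit u ∧ u ^ 2 - A * u + p = 0 := by
  have hAu : IsUnit (A : ℤ_[p]) := by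
    rw [PadicInt.isUnit_iff]
    by_contra hne
    exact hA ((PadicInt.norm_int_lt_one_iff_dvd A).1
      (lt_of_le_of_ne (PadicInt.norm_le_one _) hne))
  set F : Polynomial ℤ_[p] := Polynomial.X ^ 2 - Polynomial.C (A : ℤ_[p]) * Polynomial.X +
    Polynomial.C (p : ℤ_[p]) with hF
  have hFe : ∀ x : ℤ_[p], F.eval x = x ^ 2 - A * x + p := fun x => by simp [hF]
  have hFd : ∀ x : ℤ_[p], F.derivative.eval x = 2 * x - A := fun x => by
    simp [hF]
    norm_num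
  have h1 : ‖F.eval (A : ℤ_[p])‖ < ‖F.derivative.eval (A : ℤ_[p])‖ ^ 2 := by
    rw [hFe, hFd]
    have e1 : (A : ℤ_[p]) ^ 2 - A * A + p = p := by ring
    have e2 : 2 * (A : ℤ_[p]) - A = A := by ring
    rw [e1, e2, PadicInt.isUnit_iff.1 hAu, PadicInt.norm_p]
    have h1 : (1 : ℝ) < p := by exact_mod_cast hp.out.one_lt
    have h2 : ((p : ℝ))⁻¹ < 1 := inv_lt_one_of_one_lt₀ h1
    simpa using h2
  obtain ⟨z, hz1, hz2, -, -⟩ := hensels_lemma (F := F) (a := (A : ℤ_[p])) (by simpa using h1)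
  have hz1' : z ^ 2 - A * z + p = 0 := by rw [← hFe]; simpa using hz1
  have hzu : IsUnit z := by
    apply unit_of_not_dvd
    intro hd
    have h3 : ‖z - (A : ℤ_[p])‖ < 1 := by
      have h4 : ‖F.derivative.eval (A : ℤ_[p])‖ ≤ 1 := PadicInt.norm_le_one _
      have h5 : ‖z - (A : ℤ_[p])‖ < ‖F.derivative.eval (A : ℤ_[p])‖ := by simpa using hz2
      linarith
    have h6 : (p : ℤ_[p]) ∣ z - A := (PadicInt.norm_lt_one_iff_dvd _).1 h3
    apply not_dvd_of_unit hAu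
    have : (A : ℤ_[p]) = z - (z - A) := by ring
    rw [this]
    exact dvd_sub hd h6
  refine ⟨z, ⟨hzu, hz1'⟩, ?_⟩
  rintro y ⟨hy1, hy2⟩
  have h7 : (y - z) * (y + z - A) = 0 := by linear_combination hy2 - hz1'
  rcases mul_eq_zero.1 h7 with h8 | h8
  · exact sub_eq_zero.1 h8
  · exfalso
    have h9 : (p : ℤ_[p]) = y * z := by
      linear_combination hy2 - y * h8
    exact p_not_unit (by rw [h9]; exact hy1.mul hzu)

end Pool.Agent.H465.OC
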