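import Pool.Graph.R_pool_sql_team_seeded_3997aac3.Q237.SX.HQ2
import Pool.Agent.H465.OC.StmB

/-!
# Project OC (MP_f38b71_nt, Q1), part C: modular forms on the upper half plane
-/

set_option autoImplicit false

noncomputable section

open UpperHalfPlane hiding I
open ModularForm MatrixGroups EisensteinSeries
open Pool.Agent.Q279.SC Pool.Agent.Q237.SX

namespace Pool.Agent.H465.OC

open Polynomial (aeval)

/-- transformation behaviour of weight `w` under `SL(2, ℤ)` -/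
def Inv (w : ℤ) (F : ℍ → ℂ) : Prop := ∀ a b c d : ℤ, a * d - b * c = 1 → ∀ z z' : ℍ,
  (z' : ℂ) * (c * z + d) = a * z + b → F z' = ((c : ℂ) * z + d) ^ w * F z

/-- the function `F` is the sum of the Laurent series `s` in `q` -/
def HL (F : ℍ → ℂ) (s : LaurentSeries ℂ) : Prop := ∃ (n : ℕ) (a : PowerSeries ℂ),
  s = HahnSeries.single (-(n : ℤ)) 1 * ls a ∧ HQ (fun τ => F τ * qq τ ^ n) a

/-- `1, E_4, E_6, E_4^2, E_4 E_6, E_4^2 E_6` on the upper half plane -/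
def bC : Fin 6 → ℍ → ℂ :=
  ![fun _ => 1, fun τ => E₄ τ, fun τ => E₆ τ, fun τ => E₄ τ ^ 2, fun τ => E₄ τ * E₆ τ,
    fun τ => E₄ τ ^ 2 * E₆ τ]

/-- the `j`-invariant on the upper half plane -/
def jC (τ : ℍ) : ℂ := E₄ τ ^ 3 / ModularForm.discriminant τ

/-- `b_i Δ^s g(j)` as a function -/
def fC (i : Fin 6) (s : ℤ) (g : Polynomial ℚ) (τ : ℍ) : ℂ :=
  bC i τ * ModularForm.discriminant τ ^ s * aeval (jC τ) g

/-- `b_i Δ^s g(j)` as a Laurent series -/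
def fL (i : Fin 6) (s : ℤ) (g : Polynomial ℚ) : LaurentSeries ℚ :=
  ls (bb ℚ i) * ls (qD ℚ) ^ s * aeval (jj ℚ) g

/-- the weight of `b_i Δ^s g(j)` -/
def wt (i : Fin 6) (s : ℤ) : ℤ := (rr i : ℤ) + 12 * s

/-- change of coefficients -/
def lmap {R S : Type} [CommRing R] [CommRing S] (φ : R →+* S) (s : LaurentSeries R) :
    LaurentSeries S := HahnSeries.map s φ

/-- Task C1. -/
def HLB : Prop :=
  (∀ (F : ℍ → ℂ) (s s' : LaurentSeries ℂ), HL F s → HL F s' → s = s') ∧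
  (∀ (F G : ℍ → ℂ) (s s' : LaurentSeries ℂ), HL F s → HL G s' →
    HL (fun τ => F τ + G τ) (s + s') ∧ HL (fun τ => F τ * G τ) (s * s')) ∧
  (∀ (c : ℂ) (F : ℍ → ℂ) (s : LaurentSeries ℂ), HL F s → HL (fun τ => c * F τ) (c • s)) ∧
  (∀ (p : ℕ) [Fact p.Prime] (F : ℍ → ℂ) (s : LaurentSeries ℂ), HL F s →
    HL (fun τ => F (mulP p τ)) (VV p ℂ s) ∧
    HL (fun τ => ∑ b ∈ Finset.range p, F (divP p b τ)) ((p : ℂ) • UU p ℂ s)) ∧
  ∀ (i : Fin 6) (s : ℤ) (g : Polynomial ℚ), Inv (wt i s) (fC i s g) ∧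
    HL (fC i s g) (lmap (algebraMap ℚ ℂ) (fL i s g))

/-- Task C2: the structure of weakly holomorphic forms with rational coefficients. -/
def WHol : Prop := ∀ (i : Fin 6) (s : ℤ) (F : ℍ → ℂ) (x : LaurentSeries ℚ),
  Inv (wt i s) F → HL F (lmap (algebraMap ℚ ℂ) x) →
  ∃ Q : Polynomial ℚ, x = fL i s Q ∧ ∀ τ, F τ = fC i s Q τ

def JWHol : Prop := HLB → WHol

/-- Task C3: Hecke operators preserve the transformation behaviour. -/
def HInv : Prop := ∀ (p : ℕ) [Fact p.Prime] (w : ℤ) (F : ℍ → ℂ), Inv w F →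
  Inv w (fun τ => F (mulP p τ) + (p : ℂ) ^ (-w) * ∑ b ∈ Finset.range p, F (divP p b τ))

/-- Task C4: the Hecke operator in level one, all weights. -/
def HeckeQ : Prop := ∀ (p : ℕ) [Fact p.Prime] (i : Fin 6) (s : ℤ) (g : Polynomial ℚ),
  ∃ Q : Polynomial ℚ,
    VV p ℚ (fL i s g) + ((p : ℚ) ^ (1 - wt i s)) • UU p ℚ (fL i s g) = fL i s Q ∧
    ∀ τ : ℍ, fC i s g (mulP p τ) +
      (p : ℂ) ^ (-wt i s) * ∑ b ∈ Finset.range p, fC i s g (divP p b τ) = fC i s Q τ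

def JHeckeQ : Prop := HLB → WHol → HInv → HeckeQ

/-- Task C5. -/
def JHeckeZ : Prop := HeckeQ → HeckeZ

/-- `(A Δ(pτ) + B E_4(pτ) E_4(τ)^2 + C E_6(pτ) E_6(τ)) / Δ(τ)` -/
def thI (p : ℕ) [Fact p.Prime] (A B C : ℤ) (τ : ℍ) : ℂ :=
  (A * ModularForm.discriminant (mulP p τ) + B * (E₄ (mulP p τ) * E₄ τ ^ 2) +
    C * (E₆ (mulP p τ) * E₆ τ)) / ModularForm.discriminant τ

/-- the conjugates of `thI` -/
def thB (p : ℕ) [Fact p.Prime] (A B C : ℤ) (b : ℕ) (τ : ℍ) : ℂ :=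
  (A * (ModularForm.discriminant (divP p b τ) / p ^ 12) +
    B * (E₄ (divP p b τ) / p ^ 4 * E₄ τ ^ 2) +
    C * (E₆ (divP p b τ) / p ^ 6 * E₆ τ)) / ModularForm.discriminant τ

/-- Task C6: the modular equation. -/
def HeckePoly : Prop := ∀ (p : ℕ) [Fact p.Prime] (A B C : ℤ), ∃ g : ℕ → Polynomial ℚ,
  ∑ k ∈ Finset.range (p + 2), (-1 : LaurentSeries ℚ) ^ k * aeval (jj ℚ) (g k) *
    TT p ℚ A B C ^ (p + 1 - k) = 0 ∧
  ∀ (τ : ℍ) (z : ℂ), ∑ k ∈ Finset.range (p + 2), (-1 : ℂ) ^ k * aeval (jC τ) (g k) *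
    z ^ (p + 1 - k) = (z - thI p A B C τ) * ∏ b ∈ Finset.range p, (z - thB p A B C b τ)

def JHeckePoly : Prop := HLB → HeckeQ → HeckePoly

/-- Task C7: `j` is surjective. -/
def JSurj : Prop := ∀ z : ℂ, ∃ τ : ℍ, E₄ τ ^ 3 = z * ModularForm.discriminant τ

/-- Task C8: `j` is injective modulo `SL(2, ℤ)`. -/
def JInj : Prop := ∀ τ τ' : ℍ,
  E₄ τ ^ 3 * ModularForm.discriminant τ' = E₄ τ' ^ 3 * ModularForm.discriminant τ →
  ∃ a b c d : ℤ, a * d - b * c = 1 ∧ (τ' : ℂ) * (c * τ + d) = a * τ + b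

/-- Task C9: the `p`-adic numbers embed into the complex numbers. -/
def Emb : Prop := ∀ (p : ℕ) [Fact p.Prime], Nonempty (ℚ_[p] →+* ℂ)

/-- Task C10: the trace of Frobenius of the canonical lift. -/
def TraceC : Prop := ∀ (p : ℕ) [Fact p.Prime] (c δ e4 e6 : ℤ_[p]), c ≠ 0 → c ≠ 1728 →
  e4 ^ 3 = δ → e6 ^ 2 = δ → IsUnit δ →
  (∀ (A B C : ℤ) (g : ℕ → Polynomial ℚ),
    ∑ k ∈ Finset.range (p + 2), (-1 : LaurentSeries ℚ) ^ k * aeval (jj ℚ) (g k) *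
      TT p ℚ A B C ^ (p + 1 - k) = 0 →
    ∑ k ∈ Finset.range (p + 2), (-1 : ℚ_[p]) ^ k * aeval (c : ℚ_[p]) (g k) *
      (((A : ℤ_[p]) * δ + (B : ℤ_[p]) * (e4 * c) + (C : ℤ_[p]) * (e6 * (c - 1728)) : ℤ_[p]) :
        ℚ_[p]) ^ (p + 1 - k) = 0) →
  ∃ t : ℤ, t ^ 2 < 4 * p ∧
    e4 ^ 2 + (p : ℤ_[p]) ^ 2 * e6 ^ 2 = ((t : ℤ_[p]) ^ 2 - 2 * p) * (e4 * e6)

def JTraceC : Prop := HeckePoly → JSurj → JInj → Emb → TraceC

end Pool.Agent.H465.OC
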