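import Pool.Agent.H465.OC.Pre
import Pool.Agent.H679.OCJHeckeZ
import Pool.Agent.H404.OCHeckePoly
import Pool.Agent.H746.OCJInj

/-!
# Project OC: assembly
-/

set_option autoImplicit false

namespace Pool.Agent.H465.OC

theorem heckeZ : HeckeZ := H679.OCJHeckeZ.main heckeQ

theorem allFacts : Facts :=
  facts heckeZ (H404.OCHeckePoly.main H828.OCHLB.main heckeQ) H746.OCJInj.main

theorem all : ∀ k ∈ ({4, 6, 8, 10, 14} : Finset ℕ),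
    ∀ (E : WeierstrassCurve ℚ) [E.IsElliptic], E.j ≠ 0 → E.j ≠ 1728 →
    ∀ (p : ℕ) [Fact p.Prime] (W : WeierstrassCurve ℤ), Q279.FB.GoodModel E p W →
      ¬ (p : ℤ) ∣ Q279.FB.ap W p → padicValRat p E.j = 0 → padicValRat p (E.j - 1728) = 0 →
      (∃! u : ℤ_[p], IsUnit u ∧ u ^ 2 - (Q279.FB.ap W p : ℤ_[p]) * u + p = 0) ∧
      ∀ u : ℤ_[p], IsUnit u → u ^ 2 - (Q279.FB.ap W p : ℤ_[p]) * u + p = 0 →
        ∀ n l : ℕ, 1 ≤ n → 1 ≤ l → ∃ s : ℤ_[p],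
          ((Q279.FB.a (Q279.FB.F k 1 E.j) ((n * p ^ l : ℕ) : ℚ) : ℚ) : ℚ_[p]) -
            (u : ℚ_[p]) ^ (k - 2) *
              ((Q279.FB.a (Q279.FB.F k 1 E.j) ((n * p ^ (l - 1) : ℕ) : ℚ) : ℚ) : ℚ_[p]) =
            (p : ℚ_[p]) ^ l * (s : ℚ_[p]) :=
  final allFacts


end Pool.Agent.H465.OC
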