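import Pool.Agent.H465.OC.Alg

/-!
# Project OC: assembly from the lemmas
-/

set_option autoImplicit false

namespace Pool.Agent.H465.OC

open Polynomial Pool.Agent.Q279.SC

variable {p : ℕ} [hp : Fact p.Prime]

/-- all lemmas of the project -/
structure Facts : Prop where
  rr : RelRing
  rd : RelDiv
  rl : RelLip
  re : RelEx
  fp : FixPt
  dw : Dwork
  lb : LSBasic
  li : LSInj
  ba : Basis
  du : DualG
  se : Seq
  da : RelData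
  fr : FixRel
  o23 : Ord23
  o5 : Ord5
  ha : HasseS
  ep : EvalPoly
  two : ∀ W : WeierstrassCurve ℤ, ¬ (2 : ℤ) ∣ W.Δ → ¬ (2 : ℤ) ∣ ap W 2 → ap W 2 ^ 2 = 1
  s3 : Small 3
  s5 : Small 5
  s7 : Small 7
  s11 : Small 11
  s13 : Small 13
  lk : LinkG
  tc : TraceC

/-- `b_i/Δ` is invertible -/
theorem bdi_inv (h : LSBasic) (i : Fin 6) : ∃ y : LaurentSeries ℤ_[p],
    (ls (bb ℤ_[p] i) * Di ℤ_[p]) * y = 1 := by
  obtain ⟨-, -, -, hD, h4, h6, -⟩ := h p ℤ_[p]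
  have hls : ∀ f g : PowerSeries ℤ_[p], ls (f * g) = ls f * ls g := fun f g => by
    unfold ls; exact map_mul _ _ _
  have hls1 : ls (1 : PowerSeries ℤ_[p]) = 1 := by unfold ls; exact map_one _
  have hlsp : ∀ (f : PowerSeries ℤ_[p]) (n : ℕ), ls (f ^ n) = ls f ^ n := fun f n => by
    unfold ls; exact map_pow _ _ _
  set a := ls (q4 ℤ_[p]) with ha
  set b := ls (q6 ℤ_[p]) with hb
  set a' := ls (PowerSeries.invOfUnit (q4 ℤ_[p]) 1)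
  set b' := ls (PowerSeries.invOfUnit (q6 ℤ_[p]) 1)
  set D := ls (qD ℤ_[p])
  set d := Di ℤ_[p]
  fin_cases i
  · refine ⟨D, ?_⟩
    change ls (1 : PowerSeries ℤ_[p]) * d * D = 1
    rw [hls1]; linear_combination hD
  · refine ⟨a' * D, ?_⟩
    change ls (q4 ℤ_[p]) * d * (a' * D) = 1
    rw [← ha]; linear_combination a * a' * hD + h4
  · refine ⟨b' * D, ?_⟩
    change ls (q6 ℤ_[p]) * d * (b' * D) = 1
    rw [← hb]; linear_combination b * b' * hD + h6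
  · refine ⟨a' ^ 2 * D, ?_⟩
    change ls (q4 ℤ_[p] ^ 2) * d * (a' ^ 2 * D) = 1
    rw [hlsp, ← ha]; linear_combination a ^ 2 * a' ^ 2 * hD + (a * a' + 1) * h4
  · refine ⟨a' * b' * D, ?_⟩
    change ls (q4 ℤ_[p] * q6 ℤ_[p]) * d * (a' * b' * D) = 1
    rw [hls, ← ha, ← hb]; linear_combination a * b * a' * b' * hD + b * b' * h4 + h6
  · refine ⟨a' ^ 2 * b' * D, ?_⟩
    change ls (q4 ℤ_[p] ^ 2 * q6 ℤ_[p]) * d * (a' ^ 2 * b' * D) = 1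
    rw [hls, hlsp, ← ha, ← hb]
    linear_combination a ^ 2 * b * a' ^ 2 * b' * hD + b * b' * (a * a' + 1) * h4 + h6

/-- the power series `Φ` exists -/
theorem exists_phi (i : Fin 6) (R : Type) [CommRing R] (c : R) : ∃ Φ : PowerSeries R,
    Φ * (q4 R ^ 3 - PowerSeries.C c * qD R) = ee R i * qd R := by
  have hz40 : PowerSeries.constantCoeff (q4 R) = 1 := by
    rw [show PowerSeries.constantCoeff (q4 R) =
      (Int.castRingHom R) (PowerSeries.constantCoeff z4) from rfl,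
      show PowerSeries.constantCoeff z4 = 1 by simp [z4, zA], map_one]
  have hzD0 : PowerSeries.constantCoeff (qD R) = 0 := by
    rw [show PowerSeries.constantCoeff (qD R) =
      (Int.castRingHom R) (PowerSeries.constantCoeff zD) from rfl,
      show PowerSeries.constantCoeff zD = 0 by simp [zD, zQ, zA, zB], map_zero]
  have hT0 : PowerSeries.constantCoeff (q4 R ^ 3 - PowerSeries.C c * qD R) = 1 := by
    rw [map_sub, map_pow, map_mul, hz40, hzD0]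
    simp
  have hinv : (q4 R ^ 3 - PowerSeries.C c * qD R) *
      PowerSeries.invOfUnit (q4 R ^ 3 - PowerSeries.C c * qD R) 1 = 1 :=
    PowerSeries.mul_invOfUnit _ 1 (by rw [hT0]; simp)
  exact ⟨ee R i * qd R * PowerSeries.invOfUnit (q4 R ^ 3 - PowerSeries.C c * qD R) 1, by
    linear_combination (ee R i * qd R) * hinv⟩

/-- The data attached to an ordinary point. -/
theorem data (H : Facts) (c : ℤ_[p]) (hO : OrdAt p c) (hc : IsUnit c)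
    (hc' : IsUnit (c - 1728)) :
    ∃ (c0 e4 e6 : ℤ_[p]) (R4 R6 : ℤ_[p] → ℤ_[p]), (p : ℤ_[p]) ∣ c0 - c ∧ e4 = R4 c0 ∧ e6 = R6 c0 ∧
      Rel (jj ℤ_[p]) c R4 (s4 p) ∧ Rel (jj ℤ_[p]) c R6 (s6 p) ∧
      e4 ^ 3 = e6 ^ 2 ∧ IsUnit e6 ∧
      (∃ t : ℤ, t ^ 2 < 4 * p ∧
        e4 ^ 2 + (p : ℤ_[p]) ^ 2 * e6 ^ 2 = ((t : ℤ_[p]) ^ 2 - 2 * p) * (e4 * e6)) ∧
      ∀ i : Fin 6, (i : ℕ) < 5 → ∃ Λ0 : ℤ_[p],
        Λ0 * e6 ^ 2 = e4 ^ ((![0, 1, 0, 2, 1, 2] : Fin 6 → ℕ) i) *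
          e6 ^ ((![0, 0, 1, 0, 1, 1] : Fin 6 → ℕ) i) ∧
        ∀ P : ℕ → ℤ_[p][X], (∀ m, 1 ≤ m → IsBas ℤ_[p] i m (P m)) →
        ∀ n l : ℕ, 1 ≤ n → ∀ x : ℤ_[p], (p : ℤ_[p]) ∣ x - c →
          (p : ℤ_[p]) ^ (l + 1) ∣ (P (n * p ^ (l + 1))).eval x - Λ0 * (P (n * p ^ l)).eval x := by
  obtain ⟨hI, hN, hF⟩ := H.li p
  obtain ⟨r1, r2, r3, r4, r5⟩ := H.da p c hO
  obtain ⟨φ, hφ⟩ := H.re p _ _ c hI _ r1
  obtain ⟨R4, h4⟩ := H.re p _ _ c hI _ r2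
  obtain ⟨R6, h6⟩ := H.re p _ _ c hI _ r3
  obtain ⟨δ, hδ⟩ := H.re p _ _ c hI _ r4
  obtain ⟨hφD, c0, hc0, hfix, hit⟩ := H.fp p _ _ c (VV p ℤ_[p]) φ hI hN (hF _) hφ
  have hc0u : IsUnit c0 := unit_congr hc0 hc
  have hc0' : IsUnit (c0 - 1728) := unit_congr (by
    have : c0 - 1728 - (c - 1728) = c0 - c := by ring
    rw [this]; exact hc0) hc'
  have hne : c0 ≠ 0 := hc0u.ne_zero
  have hne' : c0 ≠ 1728 := fun h => by
    rw [h, sub_self] at hc0'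
    exact not_isUnit_zero hc0'
  obtain ⟨f1, f2, f3, f4⟩ := H.fr p c hO φ R4 R6 δ hφ h4 h6 hδ c0 hc0 hfix hne hne'
  have he6 : IsUnit (R6 c0) := by
    rw [← f2] at f3
    exact (isUnit_pow_iff (by norm_num)).1 f3
  refine ⟨c0, R4 c0, R6 c0, R4, R6, hc0, rfl, rfl, h4, h6, by rw [f1, f2], he6, ?_, ?_⟩
  · refine H.tc p c0 (δ c0) (R4 c0) (R6 c0) hne hne' f1 f2 f3 ?_
    intro A B C g hg
    exact H.ep p c R4 R6 δ h4 h6 hδ A B C g hg c0 hc0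
  · intro i hi
    obtain ⟨y, hy⟩ := bdi_inv (p := p) H.lb i
    set L := VV p ℤ_[p] (ls (bb ℤ_[p] i) * Di ℤ_[p]) * y with hLdef
    have hL : L * (ls (bb ℤ_[p] i) * Di ℤ_[p]) = VV p ℤ_[p] (ls (bb ℤ_[p] i) * Di ℤ_[p]) := by
      rw [hLdef]
      linear_combination (VV p ℤ_[p] (ls (bb ℤ_[p] i) * Di ℤ_[p])) * hy
    obtain ⟨Λ, hΛ⟩ := H.re p _ _ c hI _ (r5 i hi L hL)
    refine ⟨Λ c0, ?_, ?_⟩
    · rw [f2]
      exact f4 i hi L Λ hL hΛ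
    · intro P hP n l hn x hx
      exact H.dw p _ _ c (VV p ℤ_[p]) φ hI hN (hF _) hφ hφD c0 hc0 hfix hit Λ L hΛ
        (fun l => P (n * p ^ l)) (fun l => H.se p i hi P hP L hL n l hn) l x hx

end Pool.Agent.H465.OC
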