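import Pool.Agent.H465.OC.Fin

/-!
# Project OC: the congruence at an ordinary point
-/

set_option autoImplicit false

namespace Pool.Agent.H465.OC

open Polynomial Pool.Agent.Q279.SC

variable {p : ℕ} [hp : Fact p.Prime]

theorem int_dvd {m : ℤ} : (p : ℤ_[p]) ∣ (m : ℤ_[p]) ↔ (p : ℤ) ∣ m := by
  rw [← PadicInt.norm_lt_one_iff_dvd, PadicInt.norm_int_lt_one_iff_dvd]

theorem int_dvd2 {m : ℤ} : (p : ℤ_[p]) ^ 2 ∣ (m : ℤ_[p]) ↔ (p : ℤ) ^ 2 ∣ m := by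
  have h := PadicInt.pow_p_dvd_int_iff (p := p) 2 m
  rw [h]

/-- change of rings for the equation of `Φ` -/
theorem phi_map {Φ : PowerSeries ℤ} {n : ℕ}
    (hΦ : Φ * (q4 ℤ ^ 3 - PowerSeries.C (n : ℤ) * qD ℤ) = q4 ℤ * qd ℤ) :
    PowerSeries.map (Int.castRingHom ℤ_[p]) Φ *
      (q4 ℤ_[p] ^ 3 - PowerSeries.C (n : ℤ_[p]) * qD ℤ_[p]) = ee ℤ_[p] 4 * qd ℤ_[p] := by
  have hm : ∀ f : PowerSeries ℤ, PowerSeries.map (Int.castRingHom ℤ_[p])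
      (PowerSeries.map (Int.castRingHom ℤ) f) = PowerSeries.map (Int.castRingHom ℤ_[p]) f :=
    fun f => by ext n; simp
  have h := congrArg (PowerSeries.map (Int.castRingHom ℤ_[p])) hΦ
  rw [map_mul, map_sub, map_mul, map_pow, map_mul, PowerSeries.map_C] at h
  unfold q4 qD qd at h
  rw [hm, hm, hm] at h
  have h1 : (Int.castRingHom ℤ_[p]) (n : ℤ) = (n : ℤ_[p]) := by simp
  rw [h1] at h
  exact h

/-- the trace of the canonical lift is the trace of Frobenius up to sign -/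
theorem trace_sq (H : Facts) (W : WeierstrassCurve ℤ) (hΔ : ¬ (p : ℤ) ∣ W.Δ)
    (h4 : ¬ (p : ℤ) ∣ W.c₄) (h6 : ¬ (p : ℤ) ∣ W.c₆) (hap : ¬ (p : ℤ) ∣ ap W p)
    (c : ℤ_[p]) (hcD : c * (W.Δ : ℤ_[p]) = (W.c₄ : ℤ_[p]) ^ 3) (hc : IsUnit c)
    (c0 e4 e6 : ℤ_[p]) (R4 R6 : ℤ_[p] → ℤ_[p]) (hc0 : (p : ℤ_[p]) ∣ c0 - c) (he4 : e4 = R4 c0)
    (he6 : e6 = R6 c0) (hR4 : Rel (jj ℤ_[p]) c R4 (s4 p)) (hR6 : Rel (jj ℤ_[p]) c R6 (s6 p))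
    (h46 : e4 ^ 3 = e6 ^ 2) (hu6 : IsUnit e6) (t : ℤ) (ht : t ^ 2 < 4 * p)
    (hte : e4 ^ 2 + (p : ℤ_[p]) ^ 2 * e6 ^ 2 = ((t : ℤ_[p]) ^ 2 - 2 * p) * (e4 * e6))
    (hΛ : ∀ i : Fin 6, (i : ℕ) < 5 → ∃ Λ0 : ℤ_[p],
        Λ0 * e6 ^ 2 = e4 ^ ((![0, 1, 0, 2, 1, 2] : Fin 6 → ℕ) i) *
          e6 ^ ((![0, 0, 1, 0, 1, 1] : Fin 6 → ℕ) i) ∧
        ∀ P : ℕ → ℤ_[p][X], (∀ m, 1 ≤ m → IsBas ℤ_[p] i m (P m)) →
        ∀ n l : ℕ, 1 ≤ n → ∀ x : ℤ_[p], (p : ℤ_[p]) ∣ x - c →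
          (p : ℤ_[p]) ^ (l + 1) ∣ (P (n * p ^ (l + 1))).eval x - Λ0 * (P (n * p ^ l)).eval x) :
    t ^ 2 = ap W p ^ 2 := by
  have hpp := hp.out
  have hu4 : IsUnit e4 := by
    have h1 : IsUnit (e4 ^ 3) := by rw [h46]; exact hu6.pow 2
    exact (isUnit_pow_iff (by norm_num)).1 h1
  have htp : ¬ (p : ℤ) ∣ t := by
    intro hd
    have h1 : (p : ℤ_[p]) ∣ (t : ℤ_[p]) := int_dvd.2 hd
    obtain ⟨s, hs⟩ := h1
    have h2 : (p : ℤ_[p]) ∣ e4 ^ 2 :=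
      ⟨((p : ℤ_[p]) * s ^ 2 - 2) * (e4 * e6) - (p : ℤ_[p]) * e6 ^ 2, by
        rw [hs] at hte
        linear_combination hte⟩
    exact not_dvd_of_unit (hu4.pow 2) h2
  -- the cases
  have small : Small p → t ^ 2 = ap W p ^ 2 := by
    intro hS
    obtain ⟨Λ0, hΛ1, hΛ2⟩ := hΛ 4 (by norm_num)
    have hΛ1' : Λ0 * e6 = e4 := by
      have h1 : Λ0 * e6 ^ 2 = e4 ^ 1 * e6 ^ 1 := hΛ1
      have h2 : e6 * (Λ0 * e6) = e6 * e4 := by linear_combination h1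
      exact hu6.mul_left_cancel h2
    have hΛu : IsUnit Λ0 := by
      rw [← hΛ1'] at hu4
      exact isUnit_of_mul_isUnit_left hu4
    have hΛ3 : Λ0 ^ 2 + (p : ℤ_[p]) ^ 2 = ((t : ℤ_[p]) ^ 2 - 2 * p) * Λ0 := by
      have h2 : e6 ^ 2 * (Λ0 ^ 2 + (p : ℤ_[p]) ^ 2) =
          e6 ^ 2 * (((t : ℤ_[p]) ^ 2 - 2 * p) * Λ0) := by
        rw [← hΛ1'] at hte
        linear_combination hte
      exact (hu6.pow 2).mul_left_cancel h2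
    obtain ⟨Λi, hΛi⟩ := hΛu.exists_right_inv
    have hΛ4 : (p : ℤ_[p]) ^ 2 ∣ ((t : ℤ_[p]) ^ 2 - 2 * p) - Λ0 :=
      ⟨Λi, by linear_combination (-Λi) * hΛ3 + (Λ0 - ((t : ℤ_[p]) ^ 2 - 2 * p)) * hΛi⟩
    -- the integer n
    set n : ℕ := (PadicInt.toZMod c).val with hn
    have hnc : (p : ℤ_[p]) ∣ (n : ℤ_[p]) - c := by
      rw [← PadicInt.norm_lt_one_iff_dvd]
      rw [← PadicInt.mem_nonunits, ← IsLocalRing.mem_maximalIdeal, ← PadicInt.ker_toZMod,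
        RingHom.mem_ker, map_sub, map_natCast, hn, ZMod.natCast_val, ZMod.cast_id', id, sub_self]
    have hn0 : 0 < n := by
      rcases Nat.eq_zero_or_pos n with h0 | h0
      · exfalso
        rw [h0] at hnc
        apply not_dvd_of_unit hc
        have h1 := (dvd_neg (a := (p : ℤ_[p])) (b := ((0 : ℕ) : ℤ_[p]) - c)).2 hnc
        have h2 : -(((0 : ℕ) : ℤ_[p]) - c) = c := by push_cast; ring
        rw [h2] at h1
        exact h1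
      · exact h0
    have hnp : n < p := ZMod.val_lt _
    have hnd : (p : ℤ) ∣ n * W.Δ - W.c₄ ^ 3 := by
      rw [← int_dvd]
      obtain ⟨s, hs⟩ := hnc
      refine ⟨s * W.Δ, ?_⟩
      push_cast
      linear_combination (W.Δ : ℤ_[p]) * hs + hcD
    obtain ⟨Φ, hΦ⟩ := exists_phi 4 ℤ (n : ℤ)
    have hΦ' : Φ * (q4 ℤ ^ 3 - PowerSeries.C (n : ℤ) * qD ℤ) = q4 ℤ * qd ℤ := hΦ
    refine hS W hΔ h4 h6 hap n hn0 hnp hnd Φ hΦ' t ht htp ?_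
    have hBas := H.ba ℤ_[p] 4 (by norm_num)
    choose P hP using fun m : {m : ℕ // 1 ≤ m} => hBas.1 m.1 m.2
    set Q : ℕ → ℤ_[p][X] := fun m => if h : 1 ≤ m then P ⟨m, h⟩ else 0 with hQ
    have hQ' : ∀ m, 1 ≤ m → IsBas ℤ_[p] 4 m (Q m) := fun m hm => by
      simp only [hQ, dif_pos hm]
      exact hP ⟨m, hm⟩
    have key := hΛ2 Q hQ' 1 1 le_rfl (n : ℤ_[p]) hnc
    have hΦp := phi_map (p := p) hΦ'
    have hd1 : ∀ m, 1 ≤ m → (Q m).eval (n : ℤ_[p]) =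
        ((PowerSeries.coeff (m - 1) Φ : ℤ) : ℤ_[p]) := fun m hm => by
      rw [H.du ℤ_[p] 4 (by norm_num) m hm (Q m) (hQ' m hm) (n : ℤ_[p]) _ hΦp,
        PowerSeries.coeff_map]
      rfl
    rw [one_mul, one_mul, pow_one, hd1 _ (Nat.one_le_pow _ _ hpp.pos), hd1 _ hpp.one_le] at key
    rw [← int_dvd2]
    obtain ⟨x, hx⟩ := key
    obtain ⟨y, hy⟩ := hΛ4
    refine ⟨y * ((PowerSeries.coeff (p - 1) Φ : ℤ) : ℤ_[p]) - x, ?_⟩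
    have hx' : ((PowerSeries.coeff (p ^ 2 - 1) Φ : ℤ) : ℤ_[p]) -
        Λ0 * ((PowerSeries.coeff (p - 1) Φ : ℤ) : ℤ_[p]) = (p : ℤ_[p]) ^ 2 * x := hx
    push_cast
    linear_combination ((PowerSeries.coeff (p - 1) Φ : ℤ) : ℤ_[p]) * hy - hx'
  by_cases h2 : p = 2
  · subst h2
    have h1 := H.two W (by exact_mod_cast hΔ) (by exact_mod_cast hap)
    rw [h1]
    have h3 : ¬ (2 : ℤ) ∣ t := by exact_mod_cast htp
    have h4 : t ^ 2 < 8 := by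
      have : t ^ 2 < 4 * ((2 : ℕ) : ℤ) := ht
      push_cast at this
      linarith
    have h5 : t ≤ 2 := by nlinarith
    have h6 : -2 ≤ t := by nlinarith
    interval_cases t <;> simp_all
  by_cases h3 : p = 3
  · exact small (by rw [h3]; exact H.s3)
  by_cases h5 : p = 5
  · exact small (by rw [h5]; exact H.s5)
  by_cases h7 : p = 7
  · exact small (by rw [h7]; exact H.s7)
  by_cases h11 : p = 11
  · exact small (by rw [h11]; exact H.s11)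
  by_cases h13 : p = 13
  · exact small (by rw [h13]; exact H.s13)
  have h17 : 17 ≤ p := by
    by_contra hlt
    have h2' := hpp.two_le
    have hlt' : p < 17 := by omega
    have h8 : p ≠ 4 ∧ p ≠ 6 ∧ p ≠ 8 ∧ p ≠ 9 ∧ p ≠ 10 ∧ p ≠ 12 ∧ p ≠ 14 ∧ p ≠ 15 ∧ p ≠ 16 := by
      refine ⟨?_, ?_, ?_, ?_, ?_, ?_, ?_, ?_, ?_⟩ <;>
      · rintro rfl
        exact absurd hpp (by norm_num)
    omega
  apply sq_eq_of h17 ht (H.ha p hpp (by omega) W hΔ)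
  obtain ⟨-, ho⟩ := H.o5 p (by omega) W hΔ h4 h6 hap c hcD
  obtain ⟨g1, g2⟩ := ho R4 R6 hR4 hR6
  have l4 := H.rl p _ _ c R4 _ hR4 c0 c 1 hc0 (by rw [sub_self]; exact dvd_zero _)
    (by rw [pow_one]; exact hc0)
  have l6 := H.rl p _ _ c R6 _ hR6 c0 c 1 hc0 (by rw [sub_self]; exact dvd_zero _)
    (by rw [pow_one]; exact hc0)
  rw [pow_one, ← he4] at l4
  rw [pow_one, ← he6] at l6
  obtain ⟨x1, g1⟩ := g1
  obtain ⟨x2, g2⟩ := g2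
  obtain ⟨y1, l4⟩ := l4
  obtain ⟨y2, l6⟩ := l6
  set A : ℤ_[p] := (ap W p : ℤ_[p]) with hA
  have m4 : ∃ z1, e4 * A ^ 4 - 1 = (p : ℤ_[p]) * z1 :=
    ⟨y1 * A ^ 4 + x1, by linear_combination A ^ 4 * l4 + g1⟩
  have m6 : ∃ z2, e6 * A ^ 6 - 1 = (p : ℤ_[p]) * z2 :=
    ⟨y2 * A ^ 6 + x2, by linear_combination A ^ 6 * l6 + g2⟩
  obtain ⟨z1, m4⟩ := m4
  obtain ⟨z2, m6⟩ := m6
  -- `e4 * (e4 - t^2 e6) ≡ 0`
  have m1 : (p : ℤ_[p]) ∣ e4 * (e4 - (t : ℤ_[p]) ^ 2 * e6) :=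
    ⟨-2 * (e4 * e6) - (p : ℤ_[p]) * e6 ^ 2, by linear_combination hte⟩
  have m2 : (p : ℤ_[p]) ∣ e4 - (t : ℤ_[p]) ^ 2 * e6 := by
    obtain ⟨v, hv⟩ := hu4.exists_right_inv
    obtain ⟨s, hs⟩ := m1
    exact ⟨v * s, by linear_combination v * hs - (e4 - (t : ℤ_[p]) ^ 2 * e6) * hv⟩
  obtain ⟨s, hs⟩ := m2
  rw [← int_dvd]
  refine ⟨z1 * A ^ 2 - (t : ℤ_[p]) ^ 2 * z2 - s * A ^ 6, ?_⟩
  push_cast
  rw [← hA]
  linear_combination (-(A ^ 6)) * hs + A ^ 2 * m4 - (t : ℤ_[p]) ^ 2 * m6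

/-- The congruence for the values of the polynomials `P_m`. -/
theorem local_main (H : Facts) (W : WeierstrassCurve ℤ) (hΔ : ¬ (p : ℤ) ∣ W.Δ)
    (h4 : ¬ (p : ℤ) ∣ W.c₄) (h6 : ¬ (p : ℤ) ∣ W.c₆) (hap : ¬ (p : ℤ) ∣ ap W p)
    (c : ℤ_[p]) (hcD : c * (W.Δ : ℤ_[p]) = (W.c₄ : ℤ_[p]) ^ 3) (hc : IsUnit c)
    (hc' : IsUnit (c - 1728)) (u : ℤ_[p]) (hu : IsUnit u)
    (hu2 : u ^ 2 - (ap W p : ℤ_[p]) * u + p = 0) (i : Fin 6) (hi : (i : ℕ) < 5)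
    (P : ℕ → ℤ_[p][X]) (hP : ∀ m, 1 ≤ m → IsBas ℤ_[p] i m (P m)) (n l : ℕ) (hn : 1 ≤ n) :
    (p : ℤ_[p]) ^ (l + 1) ∣ (P (n * p ^ (l + 1))).eval c -
      u ^ (12 - rr i) * (P (n * p ^ l)).eval c := by
  have hpp := hp.out
  have hO : OrdAt p c := by
    rcases lt_or_ge p 5 with h | h
    · have h23 : p = 2 ∨ p = 3 := by
        have h2 := hpp.two_le
        have h4' : p ≠ 4 := by
          rintro rfl
          exact absurd hpp (by norm_num)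
        omega
      exact H.o23 p h23 c hc
    · exact (H.o5 p h W hΔ h4 h6 hap c hcD).1
  obtain ⟨c0, e4, e6, R4, R6, hc0, he4, he6, hR4, hR6, h46, hu6, ⟨t, ht, hte⟩, hΛ⟩ :=
    data H c hO hc hc'
  have htt := trace_sq H W hΔ h4 h6 hap c hcD hc c0 e4 e6 R4 R6 hc0 he4 he6 hR4 hR6 h46 hu6 t ht
    hte hΛ
  have htt' : (t : ℤ_[p]) ^ 2 = (ap W p : ℤ_[p]) ^ 2 := by exact_mod_cast htt
  obtain ⟨e, he⟩ := hu6.exists_right_inv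
  set w : ℤ_[p] := e4 * e with hwdef
  have hw4 : e4 = w * e6 := by rw [hwdef]; linear_combination (-e4) * he
  have hu4 : IsUnit e4 := by
    have h1 : IsUnit (e4 ^ 3) := by rw [h46]; exact hu6.pow 2
    exact (isUnit_pow_iff (by norm_num)).1 h1
  have hwu : IsUnit w := by
    rw [hw4] at hu4
    exact isUnit_of_mul_isUnit_left hu4
  have hw2 : w ^ 2 + (p : ℤ_[p]) ^ 2 = ((ap W p : ℤ_[p]) ^ 2 - 2 * p) * w := by
    have h2 : e6 ^ 2 * (w ^ 2 + (p : ℤ_[p]) ^ 2) =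
        e6 ^ 2 * (((ap W p : ℤ_[p]) ^ 2 - 2 * p) * w) := by
      rw [htt', hw4] at hte
      linear_combination hte
    exact (hu6.pow 2).mul_left_cancel h2
  have hw := w_eq hwu hu hu2 hw2
  obtain ⟨Λ0, hΛ1, hΛ2⟩ := hΛ i hi
  have hLam : Λ0 = u ^ (12 - rr i) := by
    have gen : ∀ a b r : ℕ, Λ0 * e6 ^ 2 = e4 ^ a * e6 ^ b → r + 2 * a + 3 * b = 6 →
        Λ0 = u ^ (2 * r) := fun a b r h1 h2 => by
      rw [lam_eq hw4 h46 rfl (hu6.pow 2) a b h1 r h2, hw, ← pow_mul]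
    have hi' : i = 0 ∨ i = 1 ∨ i = 2 ∨ i = 3 ∨ i = 4 := by
      have h : ∀ i : Fin 6, (i : ℕ) < 5 → i = 0 ∨ i = 1 ∨ i = 2 ∨ i = 3 ∨ i = 4 := by decide
      exact h i hi
    rcases hi' with rfl | rfl | rfl | rfl | rfl
    · exact gen 0 0 6 hΛ1 (by norm_num)
    · exact gen 1 0 4 hΛ1 (by norm_num)
    · exact gen 0 1 3 hΛ1 (by norm_num)
    · exact gen 2 0 2 hΛ1 (by norm_num)
    · exact gen 1 1 1 hΛ1 (by norm_num)
  rw [← hLam]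
  exact hΛ2 P hP n l hn c (by rw [sub_self]; exact dvd_zero _)

/-- the `p`-adic integer `j(E)` -/
theorem setup (E : WeierstrassCurve ℚ) [E.IsElliptic] (hj0 : E.j ≠ 0) (hj1 : E.j ≠ 1728)
    (W : WeierstrassCurve ℤ) (hW : Q279.FB.GoodModel E p W) (hv0 : padicValRat p E.j = 0)
    (hv1 : padicValRat p (E.j - 1728) = 0) :
    ¬ (p : ℤ) ∣ W.Δ ∧ ¬ (p : ℤ) ∣ W.c₄ ∧ ¬ (p : ℤ) ∣ W.c₆ ∧ ∃ c : ℤ_[p],
      c * (W.Δ : ℤ_[p]) = (W.c₄ : ℤ_[p]) ^ 3 ∧ (c : ℚ_[p]) = ((E.j : ℚ) : ℚ_[p]) ∧ IsUnit c ∧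
      IsUnit (c - 1728) := by
  obtain ⟨⟨v, hv⟩, hgood⟩ := hW
  -- the j-invariant
  have hc4 : (v • E).c₄ = (W.c₄ : ℚ) := by
    rw [hv, WeierstrassCurve.map_c₄]; rfl
  have hΔ : (v • E).Δ = (W.Δ : ℚ) := by
    rw [hv, WeierstrassCurve.map_Δ]; rfl
  have hΔ0 : (W.Δ : ℚ) ≠ 0 := by
    intro h
    apply hgood
    have : W.Δ = 0 := by exact_mod_cast h
    rw [this]; exact dvd_zero _
  have hj : E.j * (W.Δ : ℚ) = (W.c₄ : ℚ) ^ 3 := by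
    have h1 : (v • E).j = E.j := WeierstrassCurve.variableChange_j E v
    rw [← h1, WeierstrassCurve.j, ← hΔ, ← hc4]
    have h2 : ((v • E).Δ'⁻¹ : ℚˣ) * (v • E).Δ = (1 : ℚ) := by
      rw [← WeierstrassCurve.coe_Δ']
      exact Units.inv_mul _
    linear_combination (v • E).c₄ ^ 3 * h2
  have hrel : (1728 : ℚ) * (W.Δ : ℚ) = (W.c₄ : ℚ) ^ 3 - (W.c₆ : ℚ) ^ 2 := by
    exact_mod_cast W.c_relation
  have hj' : (E.j - 1728) * (W.Δ : ℚ) = (W.c₆ : ℚ) ^ 2 := by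
    linear_combination hj - hrel
  have hvΔ : padicValRat p (W.Δ : ℚ) = 0 := by
    rw [padicValRat.of_int]
    exact_mod_cast padicValInt.eq_zero_of_not_dvd hgood
  have hc40 : (W.c₄ : ℚ) ≠ 0 := by
    intro h
    rw [h] at hj
    have : E.j * (W.Δ : ℚ) = 0 := by rw [hj]; norm_num
    rcases mul_eq_zero.1 this with h1 | h1
    · exact hj0 h1
    · exact hΔ0 h1
  have hc60 : (W.c₆ : ℚ) ≠ 0 := by
    intro h
    rw [h] at hj'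
    have : (E.j - 1728) * (W.Δ : ℚ) = 0 := by rw [hj']; norm_num
    rcases mul_eq_zero.1 this with h1 | h1
    · exact hj1 (sub_eq_zero.1 h1)
    · exact hΔ0 h1
  have h4 : ¬ (p : ℤ) ∣ W.c₄ := by
    intro hd
    have h1 := congrArg (padicValRat p) hj
    rw [padicValRat.mul hj0 hΔ0, padicValRat.pow, hv0, hvΔ, padicValRat.of_int] at h1
    have h2 : 1 ≤ padicValInt p W.c₄ := by
      have h3 : W.c₄ ≠ 0 := by exact_mod_cast hc40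
      exact (padicValInt_dvd_iff 1 W.c₄).1 (by simpa using hd) |>.resolve_left h3
    push_cast at h1
    omega
  have h6 : ¬ (p : ℤ) ∣ W.c₆ := by
    intro hd
    have h1 := congrArg (padicValRat p) hj'
    rw [padicValRat.mul (sub_ne_zero.2 hj1) hΔ0, padicValRat.pow, hv1, hvΔ,
      padicValRat.of_int] at h1
    have h2 : 1 ≤ padicValInt p W.c₆ := by
      have h3 : W.c₆ ≠ 0 := by exact_mod_cast hc60
      exact (padicValInt_dvd_iff 1 W.c₆).1 (by simpa using hd) |>.resolve_left h3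
    push_cast at h1
    omega
  have hunit : ∀ m : ℤ, ¬ (p : ℤ) ∣ m → IsUnit (m : ℤ_[p]) := fun m hm =>
    unit_of_not_dvd (fun h => hm (int_dvd.1 h))
  obtain ⟨d, hd⟩ := (hunit _ hgood).exists_right_inv
  set c : ℤ_[p] := (W.c₄ : ℤ_[p]) ^ 3 * d with hcdef
  have hcD : c * (W.Δ : ℤ_[p]) = (W.c₄ : ℤ_[p]) ^ 3 := by
    rw [hcdef]; linear_combination (W.c₄ : ℤ_[p]) ^ 3 * hd
  have hcc : (c : ℚ_[p]) = ((E.j : ℚ) : ℚ_[p]) := by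
    have h1 : (c : ℚ_[p]) * (W.Δ : ℚ_[p]) = (W.c₄ : ℚ_[p]) ^ 3 := by
      have := congrArg (PadicInt.Coe.ringHom (p := p)) hcD
      rw [map_mul, map_pow, map_intCast, map_intCast] at this
      exact this
    have h2 : ((E.j : ℚ) : ℚ_[p]) * (W.Δ : ℚ_[p]) = (W.c₄ : ℚ_[p]) ^ 3 := by
      have := congrArg (Rat.cast : ℚ → ℚ_[p]) hj
      push_cast at this
      exact this
    have h3 : (W.Δ : ℚ_[p]) ≠ 0 := by
      exact_mod_cast (fun h => hΔ0 (by exact_mod_cast h) : W.Δ ≠ 0)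
    exact mul_right_cancel₀ h3 (h1.trans h2.symm)
  have hcu : IsUnit c := by
    have h1 : IsUnit (c * (W.Δ : ℤ_[p])) := by
      rw [hcD]; exact (hunit _ h4).pow 3
    exact isUnit_of_mul_isUnit_left h1
  have hcu' : IsUnit (c - 1728) := by
    have hrel' : (1728 : ℤ_[p]) * (W.Δ : ℤ_[p]) = (W.c₄ : ℤ_[p]) ^ 3 - (W.c₆ : ℤ_[p]) ^ 2 := by
      have h1 := congrArg (Int.castRingHom ℤ_[p]) W.c_relation
      simpa using h1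
    have h1 : IsUnit ((c - 1728) * (W.Δ : ℤ_[p])) := by
      have h2 : (c - 1728) * (W.Δ : ℤ_[p]) = (W.c₆ : ℤ_[p]) ^ 2 := by
        linear_combination hcD - hrel'
      rw [h2]; exact (hunit _ h6).pow 2
    exact isUnit_of_mul_isUnit_left h1
  exact ⟨hgood, h4, h6, c, hcD, hcc, hcu, hcu'⟩

/-- The full statement. -/
theorem final (H : Facts) : ∀ k ∈ ({4, 6, 8, 10, 14} : Finset ℕ),
    ∀ (E : WeierstrassCurve ℚ) [E.IsElliptic], E.j ≠ 0 → E.j ≠ 1728 →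
    ∀ (p : ℕ) [Fact p.Prime] (W : WeierstrassCurve ℤ), Q279.FB.GoodModel E p W →
      ¬ (p : ℤ) ∣ Q279.FB.ap W p → padicValRat p E.j = 0 → padicValRat p (E.j - 1728) = 0 →
      (∃! u : ℤ_[p], IsUnit u ∧ u ^ 2 - (Q279.FB.ap W p : ℤ_[p]) * u + p = 0) ∧
      ∀ u : ℤ_[p], IsUnit u → u ^ 2 - (Q279.FB.ap W p : ℤ_[p]) * u + p = 0 →
        ∀ n l : ℕ, 1 ≤ n → 1 ≤ l → ∃ s : ℤ_[p],
          ((Q279.FB.a (Q279.FB.F k 1 E.j) ((n * p ^ l : ℕ) : ℚ) : ℚ) : ℚ_[p]) -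
            (u : ℚ_[p]) ^ (k - 2) *
              ((Q279.FB.a (Q279.FB.F k 1 E.j) ((n * p ^ (l - 1) : ℕ) : ℚ) : ℚ) : ℚ_[p]) =
            (p : ℚ_[p]) ^ l * (s : ℚ_[p]) := by
  intro k hk E _ hj0 hj1 p hp W hW hap hv0 hv1
  have hap' : ¬ (p : ℤ) ∣ ap W p := hap
  obtain ⟨hΔ, h4, h6, c, hcD, hcc, hcu, hcu'⟩ := setup E hj0 hj1 W hW hv0 hv1
  refine ⟨unit_root _ hap', ?_⟩
  intro u hu hu2 n l hn hl
  obtain ⟨l, rfl⟩ : ∃ m, l = m + 1 := ⟨l - 1, by omega⟩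
  rw [Nat.add_sub_cancel]
  obtain ⟨i, hi, hki⟩ : ∃ i : Fin 6, (i : ℕ) < 5 ∧ 14 - rr i = k := by
    simp only [Finset.mem_insert, Finset.mem_singleton] at hk
    rcases hk with rfl | rfl | rfl | rfl | rfl
    · exact ⟨4, by norm_num, rfl⟩
    · exact ⟨3, by norm_num, rfl⟩
    · exact ⟨2, by norm_num, rfl⟩
    · exact ⟨1, by norm_num, rfl⟩
    · exact ⟨0, by norm_num, rfl⟩
  have hrr : 12 - rr i = k - 2 := by omega
  have hBas := H.ba ℤ_[p] i hi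
  choose P hP using fun m : {m : ℕ // 1 ≤ m} => hBas.1 m.1 m.2
  set Q : ℕ → ℤ_[p][X] := fun m => if h : 1 ≤ m then P ⟨m, h⟩ else 0 with hQ
  have hQ' : ∀ m, 1 ≤ m → IsBas ℤ_[p] i m (Q m) := fun m hm => by
    simp only [hQ, dif_pos hm]
    exact hP ⟨m, hm⟩
  obtain ⟨Φ, hΦ⟩ := exists_phi i ℤ_[p] c
  have hd : ∀ m : ℕ, 1 ≤ m → ((Q279.FB.a (Q279.FB.F k 1 E.j) (m : ℚ) : ℚ) : ℚ_[p]) =
      (((Q m).eval c : ℤ_[p]) : ℚ_[p]) := fun m hm => by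
    rw [← hki, H.lk p i hi E.j c hcc Φ hΦ m hm, H.du ℤ_[p] i hi m hm (Q m) (hQ' m hm) c Φ hΦ]
  obtain ⟨s, hs⟩ := local_main H W hΔ h4 h6 hap' c hcD hcu hcu' u hu hu2 i hi Q hQ' n l hn
  refine ⟨s, ?_⟩
  have hpp := hp.out
  rw [hd _ (Nat.mul_pos hn (Nat.pow_pos hpp.pos)), hd _ (Nat.mul_pos hn (Nat.pow_pos hpp.pos))]
  rw [hrr] at hs
  have h := congrArg (fun x : ℤ_[p] => (x : ℚ_[p])) hs
  push_cast at h
  exact h

end Pool.Agent.H465.OC
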