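import Pool.Agent.H465.OC.Fin2
import Pool.Agent.H415.OCRelRing
import Pool.Agent.H52.OCRelDiv
import Pool.Agent.H658.OCRelLip
import Pool.Agent.H127.OCRelEx
import Pool.Agent.H407.OCRelV
import Pool.Agent.H387.OCFixPt
import Pool.Agent.H947.OCDwork
import Pool.Agent.H476.OCLSBasic
import Pool.Agent.H828.OCLSInj
import Pool.Agent.H640.OCBasis
import Pool.Agent.H200.OCDualG
import Pool.Agent.H803.OCSeq
import Pool.Agent.H213.OCRelData
import Pool.Agent.H93.OCFixRel
import Pool.Agent.H154.OCOrd23
import Pool.Agent.H264.OCCountEq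
import Pool.Agent.H746.OCHs11
import Pool.Agent.H105.OCIsoJ
import Pool.Agent.H294.OCOrd5
import Pool.Agent.H795.OCHasseS
import Pool.Agent.H791.OCEvalPoly
import Pool.Agent.H383.OCEisId
import Pool.Agent.H92.OCLinkG
import Pool.Agent.H747.OCSmall3
import Pool.Agent.H465.OC.Small5
import Pool.Agent.H261.OCSmall7
import Pool.Agent.H117.OCSmall11
import Pool.Agent.H196.OCSmall13
import Pool.Agent.H457.OCTwo
import Pool.Agent.H828.OCHLB
import Pool.Agent.H803.OCWHol
import Pool.Agent.H109.OCHInv
import Pool.Agent.H105.OCHeckeQ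
import Pool.Agent.H213.OCJSurj
import Pool.Agent.H59.OCEmb
import Pool.Agent.H284.OCTraceC

/-!
# Project OC: assembly, the three analytic inputs as hypotheses
-/

set_option autoImplicit false

namespace Pool.Agent.H465.OC

theorem heckeQ : HeckeQ :=
  H105.OCHeckeQ.main H828.OCHLB.main (H803.OCWHol.main H828.OCHLB.main) H109.OCHInv.main

theorem facts (hz : HeckeZ) (hpo : HeckePoly) (ji : JInj) : Facts where
  rr := H415.OCRelRing.main
  rd := H52.OCRelDiv.main
  rl := H658.OCRelLip.main
  re := H127.OCRelEx.main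
  fp := H387.OCFixPt.main H415.OCRelRing.main H52.OCRelDiv.main H658.OCRelLip.main
  dw := H947.OCDwork.main H415.OCRelRing.main H52.OCRelDiv.main H658.OCRelLip.main
    H407.OCRelV.main
  lb := H476.OCLSBasic.main
  li := H828.OC.main
  ba := H640.OCBasis.main H476.OCLSBasic.main
  du := H200.OCDualG.main
  se := H803.OCSeq.main H476.OCLSBasic.main hz (H640.OCBasis.main H476.OCLSBasic.main)
  da := H213.OCRelData.main H476.OCLSBasic.main H828.OC.main hz
  fr := H93.OCFixRel.main H415.OCRelRing.main H52.OCRelDiv.main H476.OCLSBasic.main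
    H828.OC.main hz
  o23 := H154.OCOrd23.main H476.OCLSBasic.main H828.OC.main
  o5 := H294.OCOrd5.main H415.OCRelRing.main H52.OCRelDiv.main H476.OCLSBasic.main
    H828.OC.main H264.OCCountEq.main H746.OCHs11.main H105.OCIsoJ.main
  ha := H795.OCHasseS.main
  ep := H791.OCEvalPoly.main H415.OCRelRing.main H52.OCRelDiv.main H476.OCLSBasic.main
    H828.OC.main
  two := H457.OCTwo.main
  s3 := H747.OCSmall3.main
  s5 := S5.main
  s7 := H261.OC7.main
  s11 := H117.OCSmall11.main
  s13 := H196.OCSmall13.main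
  lk := H92.OCLinkG.main H383.OCEisId.main
  tc := H284.OCTraceC.main hpo H213.OCJSurj.main ji H59.OCEmb.main

end Pool.Agent.H465.OC
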